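import Pool.Agent.H22.MonoPath

set_option autoImplicit false

namespace Pool.Agent.Results.MP_ea5a80_co.Strict

open Pool.Agent.H22.MonoPath

theorem result : transPathRamsey 4 2 3 < pathRamsey 4 2 3 := main

end Pool.Agent.Results.MP_ea5a80_co.Strict
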